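import Pool.Agent.helper19.MX.SpecC

/-! # Project MX, row TPL: transport of places -/

namespace MX

open Pool.Agent.helper53.AU AN
open scoped Classical Topology

theorem TPL : TPL_stmt := by
  intro k F _ _ _ β hβ P
  refine ⟨⟨fun f => P.ord (β.symm f), ?_, ?_, ?_, ?_, ?_⟩, ?_⟩
  · rw [map_zero]
    exact P.ord_zero
  · intro a b ha hb
    rw [map_mul]
    exact P.ord_mul _ _ ((map_ne_zero β.symm).2 ha) ((map_ne_zero β.symm).2 hb)
  · intro a b ha hb hab
    rw [map_add]
    refine P.ord_add _ _ ((map_ne_zero β.symm).2 ha) ((map_ne_zero β.symm).2 hb) ?_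
    rw [← map_add]
    exact (map_ne_zero β.symm).2 hab
  · intro c hc
    obtain ⟨c', hc'⟩ := hβ c
    rw [hc']
    apply P.ord_const
    rintro rfl
    rw [map_zero] at hc'
    have h1 : algebraMap k F c ≠ 0 := (map_ne_zero (algebraMap k F)).2 hc
    exact (map_ne_zero β.symm).2 h1 hc'
  · obtain ⟨t, ht, h1⟩ := P.exists_uniformizer
    refine ⟨β t, (map_ne_zero β).2 ht, ?_⟩
    rw [RingEquiv.symm_apply_apply]
    exact h1
  · intro f
    show P.ord (β.symm (β f)) = P.ord f
    rw [RingEquiv.symm_apply_apply]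

end MX
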